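import Pool.Agent.D0H34.Q5.Core
import Pool.Agent.D0H10.Q5.Stm

/-!
# Project Q5, U6: the probabilities sum to one
-/

set_option autoImplicit false

open Finset Filter
open scoped Topology

namespace Pool.Agent.D0H34.Q5

theorem sum1 : Pool.Agent.D0H10.Q5.S_SUM := by
  have h := hasSum_bb
  have e : Pool.Agent.D0H10.Q5.prob =
      fun r => (∏' i : ℕ, (1 - (1 / 2 : ℝ) ^ (2 * i + 1))) * bb r := by
    funext r
    unfold Pool.Agent.D0H10.Q5.prob bb
    rw [mul_one_div]
  unfold Pool.Agent.D0H10.Q5.S_SUM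
  rw [e]
  exact h

end Pool.Agent.D0H34.Q5
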