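import Mathlib

/-!
# Project Q5: the identity of Euler behind the sum of the probabilities
-/

set_option autoImplicit false

open Finset Filter
open scoped Topology

namespace Pool.Agent.D0H34.Q5

/-- `1 / ((2 - 1) (4 - 1) ⋯ (2 ^ r - 1))` -/
noncomputable def bb (r : ℕ) : ℝ := 1 / ∏ i ∈ range r, ((2 : ℝ) ^ (i + 1) - 1)

lemma fac_pos (i : ℕ) : (1 : ℝ) ≤ (2 : ℝ) ^ (i + 1) - 1 := by
  have h : (2 : ℝ) ^ 1 ≤ 2 ^ (i + 1) := pow_le_pow_right₀ (by norm_num) (by omega)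
  linarith

lemma prod_ge (r : ℕ) : (2 : ℝ) ^ r / 2 ≤ ∏ i ∈ range r, ((2 : ℝ) ^ (i + 1) - 1) := by
  induction r with
  | zero => simp; norm_num
  | succ r ih =>
    rw [prod_range_succ]
    rcases Nat.eq_zero_or_pos r with h | h
    · subst h; norm_num
    · have h2 : (2 : ℝ) ^ 2 ≤ 2 ^ (r + 1) := pow_le_pow_right₀ (by norm_num) (by omega)
      have h3 : (2 : ℝ) ≤ (2 : ℝ) ^ (r + 1) - 1 := by linarith
      calc (2 : ℝ) ^ (r + 1) / 2 = 2 ^ r / 2 * 2 := by rw [pow_succ]; ring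
        _ ≤ (∏ i ∈ range r, ((2 : ℝ) ^ (i + 1) - 1)) * ((2 : ℝ) ^ (r + 1) - 1) :=
            mul_le_mul ih h3 (by norm_num) (le_trans (by positivity) ih)

lemma prod_pos' (r : ℕ) : (0 : ℝ) < ∏ i ∈ range r, ((2 : ℝ) ^ (i + 1) - 1) :=
  lt_of_lt_of_le (by positivity) (prod_ge r)

lemma bb_pos (r : ℕ) : 0 < bb r := div_pos one_pos (prod_pos' r)

lemma bb_le (r : ℕ) : bb r ≤ 2 * (1 / 2 : ℝ) ^ r := by
  unfold bb
  rw [div_le_iff₀ (prod_pos' r)]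
  have h := prod_ge r
  have h2 : (2 : ℝ) * (1 / 2) ^ r * (2 ^ r / 2) = 1 := by
    rw [one_div, inv_pow]
    field_simp
  calc (1 : ℝ) = 2 * (1 / 2) ^ r * (2 ^ r / 2) := h2.symm
    _ ≤ _ := mul_le_mul_of_nonneg_left h (by positivity)

lemma bb_succ (r : ℕ) : bb (r + 1) * ((2 : ℝ) ^ (r + 1) - 1) = bb r := by
  unfold bb
  rw [prod_range_succ]
  have h1 := (prod_pos' r).ne'
  have h2 : ((2 : ℝ) ^ (r + 1) - 1) ≠ 0 := by have := fac_pos r; linarith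
  field_simp

/-- the partial sums of the generating function at the points `1 / 2 ^ N` -/
noncomputable def ff (N : ℕ) : ℝ := ∑' r, bb r * ((1 / 2 : ℝ) ^ N) ^ r

lemma summ (N : ℕ) : Summable (fun r => bb r * ((1 / 2 : ℝ) ^ N) ^ r) := by
  refine Summable.of_nonneg_of_le (fun r => mul_nonneg (bb_pos r).le (by positivity)) (fun r => ?_)
    ((summable_geometric_of_lt_one (show (0 : ℝ) ≤ 1 / 2 by norm_num) (by norm_num)).mul_left 2)
  calc bb r * ((1 / 2 : ℝ) ^ N) ^ r ≤ bb r * 1 :=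
        mul_le_mul_of_nonneg_left (pow_le_one₀ (by positivity)
          (pow_le_one₀ (by norm_num) (by norm_num))) (bb_pos r).le
    _ ≤ _ := by rw [mul_one]; exact bb_le r

lemma ff_succ (N : ℕ) : ff N = (1 + (1 / 2 : ℝ) ^ (N + 1)) * ff (N + 1) := by
  have h1 := summ N
  have h2 := summ (N + 1)
  have e : ∀ r, bb (r + 1) * ((1 / 2 : ℝ) ^ N) ^ (r + 1) =
      bb (r + 1) * ((1 / 2 : ℝ) ^ (N + 1)) ^ (r + 1) +
        (1 / 2 : ℝ) ^ (N + 1) * (bb r * ((1 / 2 : ℝ) ^ (N + 1)) ^ r) := by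
    intro r
    rw [← bb_succ r]
    have h3 : ((1 / 2 : ℝ) ^ N) ^ (r + 1) = ((1 / 2 : ℝ) ^ (N + 1)) ^ (r + 1) * 2 ^ (r + 1) := by
      rw [← mul_pow]
      congr 1
      rw [pow_succ]; ring
    rw [h3]
    ring
  have h3 : ff N = bb 0 * ((1 / 2 : ℝ) ^ N) ^ 0 + ∑' r, bb (r + 1) * ((1 / 2 : ℝ) ^ N) ^ (r + 1) := by
    unfold ff
    exact h1.tsum_eq_zero_add
  have h4 : ff (N + 1) = bb 0 * ((1 / 2 : ℝ) ^ (N + 1)) ^ 0 +
      ∑' r, bb (r + 1) * ((1 / 2 : ℝ) ^ (N + 1)) ^ (r + 1) := by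
    unfold ff
    exact h2.tsum_eq_zero_add
  have h5 : ∑' r, bb (r + 1) * ((1 / 2 : ℝ) ^ N) ^ (r + 1) =
      ∑' r, bb (r + 1) * ((1 / 2 : ℝ) ^ (N + 1)) ^ (r + 1) + (1 / 2 : ℝ) ^ (N + 1) * ff (N + 1) := by
    rw [tsum_congr e, Summable.tsum_add ((summable_nat_add_iff 1).2 h2) (h2.mul_left _), tsum_mul_left]
    rfl
  rw [h3, h5]
  have h6 := h4
  rw [pow_zero, mul_one] at h6 ⊢
  linarith

lemma ff_zero (N : ℕ) : ff 0 = (∏ j ∈ range N, (1 + (1 / 2 : ℝ) ^ (j + 1))) * ff N := by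
  induction N with
  | zero => simp
  | succ N ih => rw [ih, ff_succ N, prod_range_succ]; ring

lemma ff_tendsto : Tendsto ff atTop (𝓝 1) := by
  have h1 : ∀ N, 1 ≤ ff N ∧ ff N ≤ 1 + (1 / 2 : ℝ) ^ N * ff 0 := by
    intro N
    have h2 : ff N = bb 0 * ((1 / 2 : ℝ) ^ N) ^ 0 +
        ∑' r, bb (r + 1) * ((1 / 2 : ℝ) ^ N) ^ (r + 1) := by
      unfold ff
      exact (summ N).tsum_eq_zero_add
    have h3 : ff 0 = bb 0 * ((1 / 2 : ℝ) ^ 0) ^ 0 +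
        ∑' r, bb (r + 1) * ((1 / 2 : ℝ) ^ 0) ^ (r + 1) := by
      unfold ff
      exact (summ 0).tsum_eq_zero_add
    have hb : bb 0 = 1 := by unfold bb; simp
    rw [hb, pow_zero, mul_one] at h2
    rw [hb, pow_zero, mul_one] at h3
    have hs : Summable fun r => bb (r + 1) * ((1 / 2 : ℝ) ^ 0) ^ (r + 1) :=
      (summable_nat_add_iff 1).2 (summ 0)
    have h4 : ∑' r, bb (r + 1) * ((1 / 2 : ℝ) ^ N) ^ (r + 1) ≤
        (1 / 2 : ℝ) ^ N * ∑' r, bb (r + 1) * ((1 / 2 : ℝ) ^ 0) ^ (r + 1) := by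
      rw [← tsum_mul_left]
      refine Summable.tsum_le_tsum (fun r => ?_) ((summable_nat_add_iff 1).2 (summ N)) (hs.mul_left _)
      rw [pow_zero, one_pow, mul_one, mul_comm, pow_succ' ((1 / 2 : ℝ) ^ N) r, mul_assoc]
      apply mul_le_mul_of_nonneg_left _ (by positivity)
      calc ((1 / 2 : ℝ) ^ N) ^ r * bb (r + 1) ≤ 1 * bb (r + 1) :=
            mul_le_mul_of_nonneg_right (pow_le_one₀ (by positivity)
              (pow_le_one₀ (by norm_num) (by norm_num))) (bb_pos _).le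
        _ = _ := one_mul _
    have h5 : 0 ≤ ∑' r, bb (r + 1) * ((1 / 2 : ℝ) ^ N) ^ (r + 1) :=
      tsum_nonneg fun r => mul_nonneg (bb_pos _).le (by positivity)
    have h6 : (0:ℝ) ≤ (1 / 2 : ℝ) ^ N := by positivity
    constructor
    · linarith
    · rw [h2]
      have : (1 / 2 : ℝ) ^ N * ∑' r, bb (r + 1) * ((1 / 2 : ℝ) ^ 0) ^ (r + 1) ≤
          (1 / 2 : ℝ) ^ N * ff 0 := mul_le_mul_of_nonneg_left (by linarith) h6
      linarith
  have h7 : Tendsto (fun N : ℕ => 1 + (1 / 2 : ℝ) ^ N * ff 0) atTop (𝓝 1) := by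
    have := ((tendsto_pow_atTop_nhds_zero_of_lt_one (show (0 : ℝ) ≤ 1 / 2 by norm_num)
      (by norm_num)).mul_const (ff 0)).const_add 1
    simpa using this
  exact tendsto_of_tendsto_of_tendsto_of_le_of_le tendsto_const_nhds h7 (fun N => (h1 N).1)
    fun N => (h1 N).2

/-- the finite identity -/
lemma fin_id (N : ℕ) : (∏ j ∈ range N, (1 + (1 / 2 : ℝ) ^ (j + 1))) *
    (∏ i ∈ range N, (1 - (1 / 2 : ℝ) ^ (2 * i + 1))) =
    ∏ j ∈ range N, (1 - (1 / 2 : ℝ) ^ (N + j + 1)) := by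
  have hpos : ∀ k : ℕ, (0 : ℝ) < ∏ j ∈ range k, (1 - (1 / 2 : ℝ) ^ (j + 1)) := by
    intro k
    refine prod_pos fun j _ => ?_
    have : (1 / 2 : ℝ) ^ (j + 1) < 1 := pow_lt_one₀ (by norm_num) (by norm_num) (by omega)
    linarith
  have h1 : (∏ j ∈ range N, (1 + (1 / 2 : ℝ) ^ (j + 1))) *
      ∏ j ∈ range N, (1 - (1 / 2 : ℝ) ^ (j + 1)) = ∏ j ∈ range N, (1 - (1 / 2 : ℝ) ^ (2 * j + 2)) := by
    rw [← prod_mul_distrib]
    refine prod_congr rfl fun j _ => ?_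
    have : (1 / 2 : ℝ) ^ (2 * j + 2) = ((1 / 2 : ℝ) ^ (j + 1)) ^ 2 := by
      rw [← pow_mul]; congr 1; ring
    rw [this]; ring
  have h2 : (∏ i ∈ range N, (1 - (1 / 2 : ℝ) ^ (2 * i + 1))) *
      ∏ j ∈ range N, (1 - (1 / 2 : ℝ) ^ (2 * j + 2)) =
      ∏ j ∈ range (2 * N), (1 - (1 / 2 : ℝ) ^ (j + 1)) := by
    induction N with
    | zero => simp
    | succ N ih =>
      have e : 2 * (N + 1) = 2 * N + 1 + 1 := by ring
      rw [e, prod_range_succ, prod_range_succ (fun j => 1 - (1 / 2 : ℝ) ^ (j + 1)) (2 * N + 1),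
        prod_range_succ (fun j => 1 - (1 / 2 : ℝ) ^ (j + 1)) (2 * N), prod_range_succ, ← ih (by
          rw [← prod_mul_distrib]
          refine prod_congr rfl fun j _ => ?_
          have : (1 / 2 : ℝ) ^ (2 * j + 2) = ((1 / 2 : ℝ) ^ (j + 1)) ^ 2 := by
            rw [← pow_mul]; congr 1; ring
          rw [this]; ring)]
      ring
  have h3 : ∏ j ∈ range (2 * N), (1 - (1 / 2 : ℝ) ^ (j + 1)) =
      (∏ j ∈ range N, (1 - (1 / 2 : ℝ) ^ (j + 1))) * ∏ j ∈ range N, (1 - (1 / 2 : ℝ) ^ (N + j + 1)) := by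
    rw [two_mul, prod_range_add]
  have h4 := hpos N
  have h5 : ((∏ j ∈ range N, (1 + (1 / 2 : ℝ) ^ (j + 1))) *
    (∏ i ∈ range N, (1 - (1 / 2 : ℝ) ^ (2 * i + 1)))) *
      ∏ j ∈ range N, (1 - (1 / 2 : ℝ) ^ (j + 1)) =
      (∏ j ∈ range N, (1 - (1 / 2 : ℝ) ^ (N + j + 1))) *
      ∏ j ∈ range N, (1 - (1 / 2 : ℝ) ^ (j + 1)) := by
    calc _ = (∏ i ∈ range N, (1 - (1 / 2 : ℝ) ^ (2 * i + 1))) *
        ((∏ j ∈ range N, (1 + (1 / 2 : ℝ) ^ (j + 1))) *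
          ∏ j ∈ range N, (1 - (1 / 2 : ℝ) ^ (j + 1))) := by ring
      _ = _ := by rw [h1, h2, h3]; ring
  exact mul_right_cancel₀ h4.ne' h5

/-- `∏_{N < j ≤ 2 N} (1 - 2 ^ (-j))` tends to one -/
lemma tail_tendsto : Tendsto (fun N : ℕ => ∏ j ∈ range N, (1 - (1 / 2 : ℝ) ^ (N + j + 1))) atTop
    (𝓝 1) := by
  have h1 : ∀ N : ℕ, 1 - (1 / 2 : ℝ) ^ N ≤ ∏ j ∈ range N, (1 - (1 / 2 : ℝ) ^ (N + j + 1)) := by
    intro N
    have h2 : ∀ k : ℕ, 1 - (1 / 2 : ℝ) ^ N * (1 - (1 / 2 : ℝ) ^ k) ≤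
        ∏ j ∈ range k, (1 - (1 / 2 : ℝ) ^ (N + j + 1)) := by
      intro k
      induction k with
      | zero => simp
      | succ k ih =>
        rw [prod_range_succ]
        have e1 : (1 / 2 : ℝ) ^ (N + k + 1) = (1 / 2 : ℝ) ^ N * (1 / 2 : ℝ) ^ k / 2 := by
          rw [pow_succ, pow_add]; ring
        have e2 : (1 / 2 : ℝ) ^ (k + 1) = (1 / 2 : ℝ) ^ k / 2 := by rw [pow_succ]; ring
        have h3 : 0 < (1 / 2 : ℝ) ^ N := by positivity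
        have h4 : 0 < (1 / 2 : ℝ) ^ k := by positivity
        have h5 : (1 / 2 : ℝ) ^ N ≤ 1 := pow_le_one₀ (by norm_num) (by norm_num)
        have h6 : (1 / 2 : ℝ) ^ k ≤ 1 := pow_le_one₀ (by norm_num) (by norm_num)
        rw [e1, e2]
        set x := (1 / 2 : ℝ) ^ N
        set y := (1 / 2 : ℝ) ^ k
        have h7 : x * y ≤ 1 := mul_le_one₀ h5 h4.le h6
        have h8 : 0 ≤ 1 - x * y / 2 := by linarith
        have h9 := mul_le_mul_of_nonneg_right ih h8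
        refine le_trans ?_ h9
        have h10 : 0 ≤ x * (1 - y) := mul_nonneg h3.le (by linarith)
        nlinarith [mul_nonneg h10 (mul_nonneg h3.le h4.le)]
    have h3 := h2 N
    have h4 : 0 < (1 / 2 : ℝ) ^ N := by positivity
    nlinarith
  have h2 : ∀ N : ℕ, ∏ j ∈ range N, (1 - (1 / 2 : ℝ) ^ (N + j + 1)) ≤ 1 := by
    intro N
    refine prod_le_one (fun j _ => ?_) (fun j _ => ?_)
    · have : (1 / 2 : ℝ) ^ (N + j + 1) ≤ 1 := pow_le_one₀ (by norm_num) (by norm_num)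
      linarith
    · have : (0:ℝ) < (1 / 2 : ℝ) ^ (N + j + 1) := by positivity
      linarith
  have h3 : Tendsto (fun N : ℕ => 1 - (1 / 2 : ℝ) ^ N) atTop (𝓝 1) := by
    have := (tendsto_pow_atTop_nhds_zero_of_lt_one (show (0 : ℝ) ≤ 1 / 2 by norm_num)
      (by norm_num)).const_sub 1
    simpa using this
  exact tendsto_of_tendsto_of_tendsto_of_le_of_le h3 tendsto_const_nhds h1 h2

lemma mult : Multipliable (fun i : ℕ => (1 - (1 / 2 : ℝ) ^ (2 * i + 1))) := by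
  have h : Summable (fun i : ℕ => -(1 / 2 : ℝ) ^ (2 * i + 1)) := by
    refine Summable.neg ?_
    refine Summable.of_nonneg_of_le (fun i => by positivity) (fun i => ?_)
      (summable_geometric_of_lt_one (show (0 : ℝ) ≤ 1 / 2 by norm_num) (by norm_num))
    exact pow_le_pow_of_le_one (by norm_num) (by norm_num) (by omega)
  have h2 := Real.multipliable_one_add_of_summable h
  simpa [sub_eq_add_neg] using h2

/-- **Euler.** `∏ (1 - 2 ^ (-(2 i + 1))) ∑ 1 / ((2 - 1) ⋯ (2 ^ r - 1)) = 1`. -/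
theorem euler : (∏' i : ℕ, (1 - (1 / 2 : ℝ) ^ (2 * i + 1))) * ff 0 = 1 := by
  have h1 : Tendsto (fun N : ℕ => ∏ i ∈ range N, (1 - (1 / 2 : ℝ) ^ (2 * i + 1))) atTop
      (𝓝 (∏' i : ℕ, (1 - (1 / 2 : ℝ) ^ (2 * i + 1)))) := mult.hasProd.tendsto_prod_nat
  have h2 : Tendsto (fun N : ℕ => (∏ i ∈ range N, (1 - (1 / 2 : ℝ) ^ (2 * i + 1))) * ff 0) atTop
      (𝓝 ((∏' i : ℕ, (1 - (1 / 2 : ℝ) ^ (2 * i + 1))) * ff 0)) := h1.mul_const _
  have h3 : Tendsto (fun N : ℕ => (∏ i ∈ range N, (1 - (1 / 2 : ℝ) ^ (2 * i + 1))) * ff 0) atTop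
      (𝓝 1) := by
    have e : ∀ N : ℕ, (∏ i ∈ range N, (1 - (1 / 2 : ℝ) ^ (2 * i + 1))) * ff 0 =
        (∏ j ∈ range N, (1 - (1 / 2 : ℝ) ^ (N + j + 1))) * ff N := by
      intro N
      rw [ff_zero N, ← fin_id N]; ring
    simp only [e]
    have := tail_tendsto.mul ff_tendsto
    simpa using this
  exact tendsto_nhds_unique h2 h3

theorem hasSum_bb : HasSum (fun r => (∏' i : ℕ, (1 - (1 / 2 : ℝ) ^ (2 * i + 1))) * bb r) 1 := by
  have h := (summ 0).hasSum.mul_left (∏' i : ℕ, (1 - (1 / 2 : ℝ) ^ (2 * i + 1)))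
  have e : (∏' i : ℕ, (1 - (1 / 2 : ℝ) ^ (2 * i + 1))) * ∑' r, bb r * ((1 / 2 : ℝ) ^ 0) ^ r = 1 :=
    euler
  rw [e] at h
  simpa using h

end Pool.Agent.D0H34.Q5
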